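import Mathlib
import Pool.Agent.Lib.MP_20906e_al.Final
import Pool.Agent.Lib.MP_20906e_al.Ex5

/-!
# The homogeneous dependence problem in dimensions 4 and 5
-/

namespace Pool.Agent.Results.MP_20906e_al.Dim45

open MvPolynomial

/-- The Jacobian matrix of a polynomial map: entry `(i, j)` is the partial derivative of `H i` with
respect to the variable `X j`. -/
noncomputable def JH {κ : Type*} [CommRing κ] {n : ℕ} (H : Fin n → MvPolynomial (Fin n) κ) :
    Matrix (Fin n) (Fin n) (MvPolynomial (Fin n) κ) :=
  Matrix.of fun i j => pderiv j (H i)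

/-- The homogeneous dependence question in dimension `n` over `κ` has a positive answer: for every
`d ≥ 1` and every `H` homogeneous of degree `d` with nilpotent Jacobian matrix, the components of `H`
are linearly dependent over `κ`. -/
def HomDep (κ : Type*) [Field κ] (n : ℕ) : Prop :=
  ∀ d : ℕ, 1 ≤ d → ∀ H : Fin n → MvPolynomial (Fin n) κ, (∀ i, (H i).IsHomogeneous d) →
    (∃ m : ℕ, 1 ≤ m ∧ JH H ^ m = 0) →
      ∃ c : Fin n → κ, c ≠ 0 ∧ ∑ i, C (c i) * H i = 0

/-- Over every field of characteristic zero the homogeneous dependence question has a positive answer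
in dimension four and a negative answer in dimension five. -/
theorem result (κ : Type*) [Field κ] [CharZero κ] : HomDep κ 4 ∧ ¬ HomDep κ 5 := by
  constructor
  · intro d hd H hH hn
    have hN : Pool.Agent.HDP.Nil κ 4 d H := ⟨hH, by
      obtain ⟨m, -, hm⟩ := hn
      exact ⟨m, hm⟩⟩
    have h := Pool.Agent.HDP.dep4_field (by omega : d ≠ 0) hN
    rw [Fintype.not_linearIndependent_iff] at h
    obtain ⟨g, hg, i, hi⟩ := h
    refine ⟨g, fun h0 => hi (by rw [h0]; rfl), ?_⟩
    rw [← hg]
    exact Finset.sum_congr rfl fun j _ => (MvPolynomial.smul_eq_C_mul _ _).symm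
  · intro h
    obtain ⟨H, hN, hi⟩ := Pool.Agent.HDP.example5 κ
    obtain ⟨c, hc, hs⟩ := h 6 (by norm_num) H hN.hom (by
      obtain ⟨m, hm⟩ := hN.nilp
      refine ⟨m + 1, by omega, ?_⟩
      have : JH H ^ m = 0 := hm
      rw [pow_succ, this, zero_mul])
    apply hc
    rw [Fintype.linearIndependent_iff] at hi
    funext i
    refine hi c ?_ i
    rw [← hs]
    exact Finset.sum_congr rfl fun j _ => MvPolynomial.smul_eq_C_mul _ _

end Pool.Agent.Results.MP_20906e_al.Dim45
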